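import Mathlib
import Pool.Agent.H646.Tuples

open Finset

namespace Pool.Agent.H312R2

open Pool.Agent.H646 (rat)
open Pool.Agent.H646.MomentM (rat_moment)
open Pool.Agent.H646.TuplesM (rat_ge_one rat_nonneg sum_le_of_inj prod_le_sum_pow)

/-- number of parameter vectors with one coordinate frozen -/
lemma card_frozen {r : ℕ} (D : Fin r → ℕ) (i : Fin r) :
    #(Fintype.piFinset (fun j : Fin r => if j = i then ({0} : Finset ℕ) else range (D j))) =
      ∏ j, (if j = i then 1 else D j) := by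
  rw [Fintype.card_piFinset]
  apply prod_congr rfl
  intro j _
  split_ifs <;> simp

/-- average of a power of `n / φ n` at a difference which moves injectively with one coordinate -/
lemma avg_one (A : ℕ) (C : ℝ) (hC : ∀ N : ℕ, ∑ n ∈ Icc 1 N, rat n ^ A ≤ C * N) {r : ℕ}
    (D : Fin r → ℕ) (T : Finset (Fin r → ℕ)) (hT : ∀ u ∈ T, ∀ j, u j < D j) (Δ : (Fin r → ℕ) → ℕ)
    (i : Fin r) (B : ℕ) (hΔ : ∀ u ∈ T, 1 ≤ Δ u ∧ Δ u ≤ B)
    (hinj : ∀ u ∈ T, ∀ v ∈ T, (∀ j, j ≠ i → u j = v j) → Δ u = Δ v → u i = v i) :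
    ∑ u ∈ T, rat (Δ u) ^ A ≤ C * ((∏ j, (if j = i then 1 else D j) : ℕ) * B) := by
  classical
  have h1 := sum_le_of_inj T (fun u => (Function.update u i 0, Δ u))
    (Fintype.piFinset (fun j : Fin r => if j = i then ({0} : Finset ℕ) else range (D j)) ×ˢ Icc 1 B)
    (fun b => rat b.2 ^ A) (fun b => pow_nonneg (rat_nonneg _) _) (by
      intro u hu
      rw [mem_product]
      refine ⟨?_, mem_Icc.2 (hΔ u hu)⟩
      rw [Fintype.mem_piFinset]
      intro j
      by_cases hj : j = i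
      · subst hj; simp
      · simp only [if_neg hj, mem_range]
        simpa [Function.update_of_ne hj] using hT u hu j) (by
      intro u hu v hv huv
      simp only [Prod.mk.injEq] at huv
      have h2 : ∀ j, j ≠ i → u j = v j := by
        intro j hj
        have := congrFun huv.1 j
        simpa [Function.update_of_ne hj] using this
      have h3 := hinj u hu v hv h2 huv.2
      funext j
      by_cases hj : j = i
      · rw [hj]; exact h3
      · exact h2 j hj)
  refine h1.trans ?_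
  rw [sum_product]
  simp only
  rw [sum_const, card_frozen, nsmul_eq_mul]
  calc ((∏ j, (if j = i then 1 else D j) : ℕ) : ℝ) * ∑ n ∈ Icc 1 B, rat n ^ A
      ≤ ((∏ j, (if j = i then 1 else D j) : ℕ) : ℝ) * (C * B) := by
        gcongr
        exact hC B
    _ = _ := by push_cast; ring

/-- average of a product of powers of `n / φ n` at several differences -/
theorem avg {ι : Type} (Q : Finset ι) (hQ : Q.Nonempty) (A : ℕ) : ∃ C > (0 : ℝ), ∀ (r : ℕ)
    (D : Fin r → ℕ) (T : Finset (Fin r → ℕ)) (Δ : ι → (Fin r → ℕ) → ℕ) (i : ι → Fin r) (B E : ℕ),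
    (∀ u ∈ T, ∀ j, u j < D j) → (∀ q ∈ Q, ∀ u ∈ T, 1 ≤ Δ q u ∧ Δ q u ≤ B) →
    (∀ q ∈ Q, ∀ u ∈ T, ∀ v ∈ T, (∀ j, j ≠ i q → u j = v j) → Δ q u = Δ q v → u (i q) = v (i q)) →
    (∀ q ∈ Q, (∏ j, (if j = i q then 1 else D j)) * B ≤ E) →
    ∑ u ∈ T, ∏ q ∈ Q, rat (Δ q u) ^ A ≤ C * E := by
  obtain ⟨C, hC0, hC⟩ := rat_moment (A * #Q)
  refine ⟨C * #Q, by have := card_pos.2 hQ; positivity, ?_⟩
  intro r D T Δ i B E hT hΔ hinj hE
  calc ∑ u ∈ T, ∏ q ∈ Q, rat (Δ q u) ^ A
      ≤ ∑ u ∈ T, ∑ q ∈ Q, rat (Δ q u) ^ (A * #Q) := by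
        apply sum_le_sum
        intro u hu
        refine (prod_le_sum_pow Q (fun q => rat (Δ q u) ^ A) ?_ hQ).trans ?_
        · intro q hq
          exact one_le_pow₀ (rat_ge_one (hΔ q hq u hu).1)
        · apply le_of_eq
          apply sum_congr rfl
          intro q _
          rw [← pow_mul]
    _ = ∑ q ∈ Q, ∑ u ∈ T, rat (Δ q u) ^ (A * #Q) := sum_comm
    _ ≤ ∑ q ∈ Q, C * E := by
        apply sum_le_sum
        intro q hq
        refine (avg_one (A * #Q) C hC D T hT (Δ q) (i q) B (hΔ q hq) (hinj q hq)).trans ?_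
        gcongr
        exact_mod_cast hE q hq
    _ = C * #Q * E := by
        rw [sum_const, nsmul_eq_mul]; ring

end Pool.Agent.H312R2
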