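import Mathlib
import Pool.Agent.H646.Defs
import Pool.Agent.Helper256.KM.Mertens

open Finset

namespace Pool.Agent.H312R2

open Pool.Agent.H646 (rat)

lemma rat_eq (t : ℕ) (ht : 1 ≤ t) : rat t = ∏ p ∈ t.primeFactors, (1 - (p : ℝ)⁻¹)⁻¹ := by
  have h1 : (Nat.totient t : ℝ) = t * ∏ p ∈ t.primeFactors, (1 - (p : ℝ)⁻¹) := by
    have := Nat.totient_eq_mul_prod_factors t
    have h2 := congrArg (fun q : ℚ => (q : ℝ)) this
    push_cast at h2
    exact h2
  have ht0 : (0 : ℝ) < t := by exact_mod_cast ht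
  unfold rat
  rw [h1, Finset.prod_inv_distrib]
  rw [← div_div, div_self (ne_of_gt ht0), one_div]

lemma rat_le_exp (t : ℕ) (ht : 1 ≤ t) : rat t ≤ Real.exp (2 * ∑ p ∈ t.primeFactors, (1 : ℝ) / p) := by
  rw [rat_eq t ht, mul_sum, Real.exp_sum]
  apply Finset.prod_le_prod
  · intro p hp
    have hp2 : (2 : ℝ) ≤ p := by exact_mod_cast (Nat.prime_of_mem_primeFactors hp).two_le
    have : (p : ℝ)⁻¹ ≤ 1 / 2 := by
      rw [one_div]; exact inv_anti₀ (by norm_num) hp2
    apply inv_nonneg.2; linarith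
  · intro p hp
    have hp2 : (2 : ℝ) ≤ p := by exact_mod_cast (Nat.prime_of_mem_primeFactors hp).two_le
    have h1 : (p : ℝ)⁻¹ ≤ 1 / 2 := by
      rw [one_div]; exact inv_anti₀ (by norm_num) hp2
    have h0 : (0 : ℝ) < (p : ℝ)⁻¹ := by positivity
    have h3 := Real.add_one_le_exp (2 * (1 / (p : ℝ)))
    refine le_trans ?_ h3
    rw [one_div, inv_le_comm₀ (by linarith) (by positivity)]
    rw [inv_le_iff_one_le_mul₀ (by positivity)]
    nlinarith

theorem rat_le : ∃ C > (0 : ℝ), ∃ b0 : ℕ, ∀ b : ℕ, b0 ≤ b → 1 ≤ Real.log (Real.log b) ∧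
    ∀ t : ℕ, 1 ≤ t → t ≤ b → rat t ≤ C * (Real.log (Real.log b)) ^ 2 := by
  obtain ⟨C, hC⟩ := Pool.Agent.Helper256.KM.mertens_inv
  have hlim : Filter.Tendsto (fun b : ℕ => Real.log (b : ℝ)) Filter.atTop Filter.atTop :=
    Real.tendsto_log_atTop.comp tendsto_natCast_atTop_atTop
  have hlim2 : Filter.Tendsto (fun b : ℕ => Real.log (Real.log (b : ℝ))) Filter.atTop Filter.atTop :=
    Real.tendsto_log_atTop.comp hlim
  obtain ⟨b1, hb1⟩ := Filter.eventually_atTop.1 (hlim.eventually (Filter.eventually_ge_atTop 4))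
  obtain ⟨b2, hb2⟩ := Filter.eventually_atTop.1 (hlim2.eventually (Filter.eventually_ge_atTop 1))
  refine ⟨Real.exp (2 * (C + 4)), Real.exp_pos _, max 1 (max b1 b2), fun b hb => ?_⟩
  simp only [max_le_iff] at hb
  obtain ⟨hb0, hb1', hb2'⟩ := hb
  have h4 := hb1 b hb1'
  have h5 := hb2 b hb2'
  refine ⟨h5, fun t ht htb => ?_⟩
  set z : ℕ := ⌊Real.log (b : ℝ)⌋₊ with hz
  have hz4 : 4 ≤ z := Nat.le_floor (by exact_mod_cast h4)
  have hzle : (z : ℝ) ≤ Real.log b := Nat.floor_le (by linarith)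
  have hzge : Real.log b < z + 1 := Nat.lt_floor_add_one _
  have hzr : (4 : ℝ) ≤ z := by exact_mod_cast hz4
  have hM := hC z (by omega)
  have hM2 : ∑ p ∈ (Finset.Icc 1 z).filter Nat.Prime, (1 : ℝ) / p ≤ Real.log (Real.log z) + C := by
    have := (abs_le.1 hM).2
    linarith
  have hcard : (#t.primeFactors : ℝ) ≤ 2 * Real.log b := by
    have h1 : 2 ^ #t.primeFactors ≤ t := by
      calc 2 ^ #t.primeFactors = ∏ _p ∈ t.primeFactors, 2 := by rw [prod_const]
        _ ≤ ∏ p ∈ t.primeFactors, p := by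
          apply Finset.prod_le_prod' 
          intro p hp
          exact (Nat.prime_of_mem_primeFactors hp).two_le
        _ ≤ t := Nat.le_of_dvd (by omega) (Nat.prod_primeFactors_dvd t)
    have h2 : (2 : ℝ) ^ #t.primeFactors ≤ b := by exact_mod_cast h1.trans htb
    have h3 := Real.log_le_log (by positivity) h2
    rw [Real.log_pow] at h3
    have h6 := Real.log_two_gt_d9
    have h7 : (0 : ℝ) ≤ #t.primeFactors := by positivity
    nlinarith
  have hsum : ∑ p ∈ t.primeFactors, (1 : ℝ) / p ≤ Real.log (Real.log (Real.log b)) + (C + 4) := by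
    have hsplit : ∑ p ∈ t.primeFactors, (1 : ℝ) / p ≤
        ∑ p ∈ (Finset.Icc 1 z).filter Nat.Prime, (1 : ℝ) / p + ∑ p ∈ t.primeFactors, (1 : ℝ) / z := by
      rw [← Finset.sum_filter_add_sum_filter_not t.primeFactors (fun p => p ≤ z)]
      apply add_le_add
      · apply sum_le_sum_of_subset_of_nonneg
        · intro p hp
          simp only [mem_filter, mem_Icc] at hp ⊢
          have hpp := Nat.prime_of_mem_primeFactors hp.1
          exact ⟨⟨hpp.one_le, hp.2⟩, hpp⟩
        · intro p _ _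
          positivity
      · refine le_trans (sum_le_sum (g := fun _ => (1 : ℝ) / z) ?_) ?_
        · intro p hp
          simp only [mem_filter, not_le] at hp
          apply one_div_le_one_div_of_le (by linarith)
          exact_mod_cast hp.2.le
        · apply sum_le_sum_of_subset_of_nonneg (filter_subset _ _)
          intro p _ _
          positivity
    have h8 : ∑ p ∈ t.primeFactors, (1 : ℝ) / z ≤ 3 := by
      rw [sum_const, nsmul_eq_mul, mul_one_div, div_le_iff₀ (by linarith)]
      linarith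
    have h9 : Real.log (Real.log z) ≤ Real.log (Real.log (Real.log b)) := by
      have hz1 : 0 < Real.log z := Real.log_pos (by linarith)
      apply Real.log_le_log hz1
      exact Real.log_le_log (by linarith) hzle
    linarith
  calc rat t ≤ Real.exp (2 * ∑ p ∈ t.primeFactors, (1 : ℝ) / p) := rat_le_exp t ht
    _ ≤ Real.exp (2 * (Real.log (Real.log (Real.log b)) + (C + 4))) := by
        apply Real.exp_le_exp.2; linarith
    _ = Real.exp (2 * (C + 4)) * Real.exp (2 * Real.log (Real.log (Real.log b))) := by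
        rw [← Real.exp_add]; congr 1; ring
    _ = Real.exp (2 * (C + 4)) * (Real.log (Real.log b)) ^ 2 := by
        rw [two_mul (Real.log (Real.log (Real.log b))), Real.exp_add, Real.exp_log (by linarith), sq]

end Pool.Agent.H312R2
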