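import Mathlib
import Pool.Agent.Helper112.BV

open Finset

namespace Pool.Agent.H312R2

/-- Chebyshev lower bound, as an eventual statement in a power of `K`. -/
lemma theta_lower : ∃ n0 : ℕ, ∀ n : ℕ, n0 ≤ n → (0.6 : ℝ) * n ≤ Chebyshev.theta (n : ℝ) := by
  obtain ⟨K1, h1⟩ := Pool.Agent.Helper112.log_pow_le 60 1 (1 / 2) (by norm_num)
  refine ⟨max 2 (max K1 0), fun n hn => ?_⟩
  have hn2 : 2 ≤ n := (le_max_left _ _).trans hn
  have hnK : K1 ≤ n := ((le_max_left _ _).trans (le_max_right _ _)).trans hn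
  have h2 := h1 n hnK
  rw [pow_one, ← Real.sqrt_eq_rpow] at h2
  have hn0 : (2 : ℝ) ≤ n := by exact_mod_cast hn2
  have h3 := Chebyshev.theta_ge n
  have hs : Real.sqrt n * Real.sqrt n = n := Real.mul_self_sqrt (by linarith)
  have hs1 : 1 ≤ Real.sqrt n := by
    rw [Real.one_le_sqrt]; linarith
  have hlog : 0 ≤ Real.log n := Real.log_nonneg (by linarith)
  have h4 : Real.log ((n : ℝ) + 1) ≤ 2 * Real.log n := by
    rw [← Real.log_rpow (by linarith), ]
    apply Real.log_le_log (by linarith)
    rw [Real.rpow_two]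
    nlinarith
  have h5 : 0.69 < Real.log 2 := by linarith [Real.log_two_gt_d9]
  have h6 : 60 * Real.log n * Real.sqrt n ≤ n := by
    calc 60 * Real.log n * Real.sqrt n ≤ Real.sqrt n * Real.sqrt n := by
          apply mul_le_mul_of_nonneg_right h2 (Real.sqrt_nonneg _)
      _ = n := hs
  have h7 : Real.log n ≤ Real.log n * Real.sqrt n := by nlinarith
  nlinarith

/-- number of primes in `(y, 4y]` -/
lemma many_primes : ∃ n0 : ℕ, ∀ y : ℕ, n0 ≤ y →
    (y : ℝ) / 2 ≤ (#{q ∈ Ioc y (4 * y) | q.Prime} : ℝ) * Real.log (4 * y) := by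
  obtain ⟨n0, h0⟩ := theta_lower
  refine ⟨max 2 n0, fun y hy => ?_⟩
  have hy2 : 2 ≤ y := (le_max_left _ _).trans hy
  have hy0 : n0 ≤ y := (le_max_right _ _).trans hy
  have h1 := h0 (4 * y) (by omega)
  have h2 : Chebyshev.theta (y : ℝ) ≤ Real.log 4 * y := Chebyshev.theta_le_log4_mul_x (by positivity)
  have h3 : Real.log 4 < 1.39 := by
    rw [show (4 : ℝ) = 2 ^ 2 by norm_num, Real.log_pow]
    have := Real.log_two_lt_d9
    push_cast
    linarith
  have h4 : Chebyshev.theta ((4 * y : ℕ) : ℝ) ≤ Chebyshev.theta (y : ℝ) +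
      (#{q ∈ Ioc y (4 * y) | q.Prime} : ℝ) * Real.log (4 * y) := by
    have e1 : Chebyshev.theta ((4 * y : ℕ) : ℝ) =
        Chebyshev.theta (y : ℝ) + ∑ q ∈ Ioc y (4 * y) with q.Prime, Real.log q := by
      rw [Chebyshev.theta, Chebyshev.theta, Nat.floor_natCast, Nat.floor_natCast, sum_filter,
        sum_filter, sum_filter, Finset.sum_Ioc_consecutive _ (by omega) (by omega)]
    rw [e1]
    gcongr
    rw [← nsmul_eq_mul]
    apply sum_le_card_nsmul
    intro q hq
    simp only [mem_filter, mem_Ioc] at hq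
    apply Real.log_le_log
    · exact_mod_cast hq.2.pos
    · exact_mod_cast hq.1.2
  push_cast at h1 h4
  have hy' : (2 : ℝ) ≤ y := by exact_mod_cast hy2
  nlinarith

/-- In the range where the Bombieri-Vinogradov bound with large conductors applies, for any choice of
reduced classes `a q` some prime `q` in `(y, 4y]` has at least three primes up to `K^(4L)` in its class. -/
theorem three_primes (L : ℕ) (hL : 4 ≤ L) : ∃ K0 : ℕ, ∀ K : ℕ, K0 ≤ K → ∀ y : ℕ, K ^ 2 ≤ y →
    4 * y * K ^ 2 ≤ K ^ (2 * L) → ∀ a : ℕ → ℕ,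
    (∀ q, q.Prime → y < q → q ≤ 4 * y → (a q).Coprime q) →
    ∃ q, q.Prime ∧ y < q ∧ q ≤ 4 * y ∧
      3 ≤ #{s ∈ Icc 1 (K ^ (4 * L)) | s.Prime ∧ s ≡ a q [MOD q]} := by
  obtain ⟨K1, hBV⟩ := Pool.Agent.Helper112.BV L hL
  obtain ⟨n1, hth⟩ := theta_lower
  obtain ⟨n2, hmp⟩ := many_primes
  obtain ⟨K2, hlog2⟩ := Pool.Agent.Helper112.log_pow_le (128 * L) 1 (1 / 4) (by norm_num)
  refine ⟨max 4 (max K1 (max n1 (max n2 K2))), fun K hK y hy1 hy2 a ha => ?_⟩
  simp only [max_le_iff] at hK
  obtain ⟨hK4, hKK1, hKn1, hKn2, hKK2⟩ := hK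
  by_contra hcon
  push Not at hcon
  have hK1 : 1 ≤ K := by omega
  set X : ℕ := K ^ (4 * L) with hX
  have hKX : K ≤ X := Nat.le_self_pow (by omega) K
  have hy0 : K ≤ y := le_trans (Nat.le_self_pow (by norm_num) K) hy1
  have hypos : 0 < y := by omega
  have hy3 : 4 * y ≤ K ^ (2 * L - 2) := by
    have h4 : 4 * y * K ^ 2 ≤ K ^ (2 * L - 2) * K ^ 2 := by
      rw [← pow_add]
      rw [show 2 * L - 2 + 2 = 2 * L by omega]
      exact hy2
    exact Nat.le_of_mul_le_mul_right h4 (by positivity)
  set M : Finset ℕ := {q ∈ Ioc y (4 * y) | q.Prime} with hM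
  have hB := hBV K hKK1 M a (by
    intro m hm
    simp only [hM, mem_filter, mem_Ioc] at hm
    obtain ⟨⟨hm1, hm2⟩, hmp⟩ := hm
    refine ⟨hmp.prime.squarefree, ?_, ?_, ?_, ha m hmp hm1 hm2⟩
    · exact (Nat.mul_le_mul_right _ hm2).trans hy2
    · rw [Nat.totient_prime hmp]
      have := hmp.two_le
      omega
    · intro f hf hf1
      rcases (Nat.dvd_prime hmp).1 hf with h | h
      · exact absurd h hf1
      · rw [h]; omega)
  have hKr : (4 : ℝ) ≤ K := by exact_mod_cast hK4
  have hXr : (4 : ℝ) ≤ X := by exact_mod_cast hK4.trans hKX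
  have hyr : (0 : ℝ) < y := by exact_mod_cast hypos
  have hlogK : 0 < Real.log K := Real.log_pos (by linarith)
  have hlog4 : 128 * L * Real.log K ≤ (K : ℝ) ^ (1 / 4 : ℝ) := by
    have := hlog2 K hKK2
    rwa [pow_one] at this
  have hKq : (K : ℝ) ^ (1 / 4 : ℝ) * (K : ℝ) ^ (1 / 4 : ℝ) = Real.sqrt K := by
    rw [← Real.rpow_add (by linarith), Real.sqrt_eq_rpow]; norm_num
  have hKq1 : 1 ≤ (K : ℝ) ^ (1 / 4 : ℝ) := Real.one_le_rpow (by linarith) (by norm_num)
  have hlogX : Real.log X = 4 * L * Real.log K := by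
    rw [hX]; push_cast; rw [Real.log_pow]; push_cast; ring
  have hLr : (4 : ℝ) ≤ L := by exact_mod_cast hL
  have hsqrtX : Real.sqrt X = (K : ℝ) ^ (2 * L) := by
    rw [hX, Real.sqrt_eq_iff_mul_self_eq (by positivity) (by positivity)]
    push_cast
    rw [← pow_add]; congr 1; ring
  -- lower bound for each modulus
  have hlow : ∀ q ∈ M, (X : ℝ) / (16 * y) ≤
      |Pool.Agent.Helper112.Dl X q (a q) (fun n => ArithmeticFunction.vonMangoldt n)| := by
    intro q hq
    have hqM := hq
    simp only [hM, mem_filter, mem_Ioc] at hq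
    obtain ⟨⟨hq1, hq2⟩, hqp⟩ := hq
    have hc := hcon q hqp hq1 hq2
    have hqpos : (0 : ℝ) < (q : ℝ) - 1 := by
      have : (2 : ℝ) ≤ q := by exact_mod_cast hqp.two_le
      linarith
    -- the class sum is small
    have hA : ∑ n ∈ (Icc 1 X).filter (fun n => n ≡ a q [MOD q]), ArithmeticFunction.vonMangoldt n
        ≤ 2 * Real.log X + 2 * Real.sqrt X * Real.log X := by
      rw [← sum_filter_add_sum_filter_not _ (fun n => n.Prime)]
      apply add_le_add
      · have h1 : ∑ n ∈ ((Icc 1 X).filter (fun n => n ≡ a q [MOD q])).filter (fun n => n.Prime),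
            ArithmeticFunction.vonMangoldt n ≤
            #(((Icc 1 X).filter (fun n => n ≡ a q [MOD q])).filter (fun n => n.Prime)) • Real.log X := by
          apply sum_le_card_nsmul
          intro n hn
          simp only [mem_filter, mem_Icc] at hn
          rw [ArithmeticFunction.vonMangoldt_apply_prime hn.2]
          apply Real.log_le_log
          · exact_mod_cast hn.2.pos
          · exact_mod_cast hn.1.1.2
        have h2 : #(((Icc 1 X).filter (fun n => n ≡ a q [MOD q])).filter (fun n => n.Prime)) ≤ 2 := by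
          have : ((Icc 1 X).filter (fun n => n ≡ a q [MOD q])).filter (fun n => n.Prime) =
              {s ∈ Icc 1 X | s.Prime ∧ s ≡ a q [MOD q]} := by
            ext n
            simp only [mem_filter]
            tauto
          rw [this]
          omega
        refine h1.trans ?_
        rw [nsmul_eq_mul]
        have h3 : ((#(((Icc 1 X).filter (fun n => n ≡ a q [MOD q])).filter (fun n => n.Prime)) : ℕ) : ℝ)
            ≤ 2 := by exact_mod_cast h2
        have h4 : 0 ≤ Real.log X := Real.log_nonneg (by linarith)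
        exact mul_le_mul_of_nonneg_right h3 h4
      · have h1 : Chebyshev.psi (X : ℝ) - Chebyshev.theta (X : ℝ) =
            ∑ n ∈ Ioc 0 X with ¬n.Prime, ArithmeticFunction.vonMangoldt n := by
          have := Chebyshev.psi_sub_theta_eq_sum_not_prime (X : ℝ)
          rwa [Nat.floor_natCast] at this
        have h2 := Chebyshev.psi_sub_theta_le (x := (X : ℝ)) (by linarith)
        rw [h1] at h2
        refine le_trans (sum_le_sum_of_subset_of_nonneg ?_ ?_) h2
        · intro n hn
          simp only [mem_filter, mem_Icc, mem_Ioc] at hn ⊢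
          exact ⟨⟨by omega, hn.1.1.2⟩, hn.2⟩
        · intro n _ _
          exact ArithmeticFunction.vonMangoldt_nonneg
    -- the main term is large
    have hBt : (0.5 : ℝ) * X ≤ ∑ n ∈ (Icc 1 X).filter (fun n => n.Coprime q), ArithmeticFunction.vonMangoldt n := by
      have h1 := hth X (hKn1.trans hKX)
      have h2 : Chebyshev.theta (X : ℝ) - Real.log q ≤
          ∑ n ∈ (Icc 1 X).filter (fun n => n.Coprime q), ArithmeticFunction.vonMangoldt n := by
        rw [Chebyshev.theta, Nat.floor_natCast]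
        have hqX : q ≤ X := by
          refine hq2.trans (hy3.trans ?_)
          exact Nat.pow_le_pow_right hK1 (by omega)
        have hqm : q ∈ (Ioc 0 X).filter (fun n => n.Prime) := by
          simp only [mem_filter, mem_Ioc]
          exact ⟨⟨hqp.pos, hqX⟩, hqp⟩
        have e1 : ∑ n ∈ (Ioc 0 X).filter (fun n => n.Prime), Real.log n =
            Real.log q + ∑ n ∈ ((Ioc 0 X).filter (fun n => n.Prime)).erase q, Real.log n :=
          (add_sum_erase _ _ hqm).symm
        rw [e1, add_sub_cancel_left]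
        calc ∑ n ∈ ((Ioc 0 X).filter (fun n => n.Prime)).erase q, Real.log n
            = ∑ n ∈ ((Ioc 0 X).filter (fun n => n.Prime)).erase q, ArithmeticFunction.vonMangoldt n := by
              apply sum_congr rfl
              intro n hn
              simp only [mem_erase, mem_filter] at hn
              rw [ArithmeticFunction.vonMangoldt_apply_prime hn.2.2]
          _ ≤ _ := by
              apply sum_le_sum_of_subset_of_nonneg
              · intro n hn
                simp only [mem_erase, mem_filter, mem_Ioc, mem_Icc] at hn ⊢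
                refine ⟨⟨by omega, hn.2.1.2⟩, ?_⟩
                exact (Nat.coprime_primes hn.2.2 hqp).2 hn.1
              · intro n _ _
                exact ArithmeticFunction.vonMangoldt_nonneg
      have h3 : Real.log q ≤ 0.1 * X := by
        have hqX : (q : ℝ) ≤ (K : ℝ) ^ (2 * L - 2) := by exact_mod_cast hq2.trans hy3
        have hqpos' : (0 : ℝ) < q := by linarith
        calc Real.log q ≤ Real.log ((K : ℝ) ^ (2 * L)) := by
              apply Real.log_le_log hqpos'
              exact hqX.trans (pow_le_pow_right₀ (by linarith) (by omega))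
          _ = 2 * L * Real.log K := by rw [Real.log_pow]; push_cast; ring
          _ ≤ (1 / 64) * (K : ℝ) ^ (1 / 4 : ℝ) := by linarith
          _ ≤ (1 / 64) * K := by
              gcongr
              exact Real.rpow_le_self_of_one_le (by linarith) (by norm_num)
          _ ≤ 0.1 * X := by
              have : (K : ℝ) ≤ X := by exact_mod_cast hKX
              linarith
      linarith
    have h16 : 2 * Real.log X + 2 * Real.sqrt X * Real.log X ≤ X / (16 * y) := by
      have hKle : (K : ℝ) ^ (1 / 4 : ℝ) ≤ K :=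
        Real.rpow_le_self_of_one_le (by linarith) (by norm_num)
      have hl : Real.log X ≤ K / 32 := by rw [hlogX]; linarith
      have hl0 : 0 ≤ Real.log X := Real.log_nonneg (by linarith)
      have hP1 : (1 : ℝ) ≤ (K : ℝ) ^ (2 * L) := one_le_pow₀ (by linarith)
      have hXe : (X : ℝ) = (K : ℝ) ^ (2 * L - 2) * ((K : ℝ) ^ (2 * L) * K ^ 2) := by
        rw [hX]; push_cast; rw [← pow_add, ← pow_add]; congr 1; omega
      have hyr2 : (16 : ℝ) * y ≤ 4 * (K : ℝ) ^ (2 * L - 2) := by
        have : (4 : ℝ) * y ≤ (K : ℝ) ^ (2 * L - 2) := by exact_mod_cast hy3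
        linarith
      rw [hsqrtX]
      calc 2 * Real.log X + 2 * (K : ℝ) ^ (2 * L) * Real.log X
          ≤ 4 * ((K : ℝ) ^ (2 * L) * Real.log X) := by nlinarith
        _ ≤ 4 * ((K : ℝ) ^ (2 * L) * (K / 32)) := by gcongr
        _ ≤ ((K : ℝ) ^ (2 * L) * K ^ 2) / 4 := by
            have : (K : ℝ) ≤ K ^ 2 := by nlinarith
            have h5 : (K : ℝ) ^ (2 * L) * K ≤ (K : ℝ) ^ (2 * L) * K ^ 2 := by gcongr
            have h6 : (0 : ℝ) ≤ (K : ℝ) ^ (2 * L) * K := by positivity
            linarith
        _ = X / (4 * (K : ℝ) ^ (2 * L - 2)) := by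
            rw [hXe]
            field_simp
        _ ≤ X / (16 * y) := by gcongr
    have hmain : (X : ℝ) / (8 * y) ≤ (1 / (Nat.totient q : ℝ)) *
        ∑ n ∈ (Icc 1 X).filter (fun n => n.Coprime q), ArithmeticFunction.vonMangoldt n := by
      rw [Nat.totient_prime hqp, Nat.cast_sub hqp.one_le, Nat.cast_one]
      have hq4 : (q : ℝ) - 1 ≤ 4 * y := by
        have : (q : ℝ) ≤ 4 * y := by exact_mod_cast hq2
        linarith
      calc (X : ℝ) / (8 * y) = (1 / (4 * y)) * (0.5 * X) := by field_simp; norm_num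
        _ ≤ (1 / ((q : ℝ) - 1)) * (0.5 * X) := by gcongr
        _ ≤ _ := by gcongr
    have hfin : Pool.Agent.Helper112.Dl X q (a q) (fun n => ArithmeticFunction.vonMangoldt n) ≤
        - ((X : ℝ) / (16 * y)) := by
      unfold Pool.Agent.Helper112.Dl
      have : (X : ℝ) / (8 * y) = X / (16 * y) + X / (16 * y) := by ring
      linarith
    have := neg_abs_le (Pool.Agent.Helper112.Dl X q (a q) (fun n => ArithmeticFunction.vonMangoldt n))
    linarith
  -- contradiction
  have hcardM := hmp y (hKn2.trans hy0)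
  rw [← hM] at hcardM
  have hlog4y : Real.log (4 * y) ≤ 2 * L * Real.log K := by
    calc Real.log (4 * y) ≤ Real.log ((K : ℝ) ^ (2 * L)) := by
          apply Real.log_le_log (by positivity)
          have : (4 : ℝ) * y ≤ (K : ℝ) ^ (2 * L - 2) := by exact_mod_cast hy3
          refine this.trans ?_
          exact pow_le_pow_right₀ (by linarith) (by omega)
      _ = 2 * L * Real.log K := by rw [Real.log_pow]; push_cast; ring
  have hsum : (#M : ℝ) * ((X : ℝ) / (16 * y)) ≤ (K : ℝ) ^ (4 * L) / Real.sqrt K := by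
    refine le_trans ?_ hB
    rw [← nsmul_eq_mul]
    exact card_nsmul_le_sum _ _ _ hlow
  have hXr' : (X : ℝ) = (K : ℝ) ^ (4 * L) := by rw [hX]; push_cast; rfl
  rw [← hXr'] at hsum
  have hsK : 0 < Real.sqrt K := Real.sqrt_pos.2 (by linarith)
  have h1 : (#M : ℝ) * Real.sqrt K ≤ 16 * y := by
    have h2 : (#M : ℝ) * ((X : ℝ) / (16 * y)) = (X : ℝ) * (#M / (16 * y)) := by ring
    rw [h2] at hsum
    have h3 : (X : ℝ) / Real.sqrt K = X * (1 / Real.sqrt K) := by ring
    rw [h3] at hsum
    have h4 := le_of_mul_le_mul_left hsum (by linarith)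
    rw [div_le_div_iff₀ (by positivity) hsK] at h4
    linarith
  have h2 : (y : ℝ) / 2 ≤ #M * (2 * L * Real.log K) :=
    hcardM.trans (mul_le_mul_of_nonneg_left hlog4y (by positivity))
  -- 64 L log K < sqrt K
  have h5 : 64 * L * Real.log K * 2 ≤ Real.sqrt K := by
    rw [← hKq]
    nlinarith
  have h6 : (0 : ℝ) < #M := by
    by_contra h
    have : (#M : ℝ) = 0 := le_antisymm (not_lt.1 h) (by positivity)
    rw [this] at h2
    linarith
  have h7 : (#M : ℝ) * Real.sqrt K ≤ 16 * (2 * (#M * (2 * L * Real.log K))) := by linarith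
  have h8 : (#M : ℝ) * (64 * L * Real.log K * 2) ≤ #M * Real.sqrt K :=
    mul_le_mul_of_nonneg_left h5 h6.le
  have h9 : 0 < (#M : ℝ) * (L * Real.log K) := by positivity
  nlinarith

end Pool.Agent.H312R2
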