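import Mathlib
import Pool.Agent.H312R2.TwoPrimes
import Pool.Agent.H312R2.RatBound
import Pool.Agent.H646.Tuples

open Finset

namespace Pool.Agent.H312R2

/-- the `n`-th prime, numbered from `0` -/
noncomputable abbrev P (n : ℕ) : ℕ := Nat.nth Nat.Prime n

/-- the blocks of `l` consecutive primes starting at `P j` and `P k` are translates of each other -/
def SameP (j k l : ℕ) : Prop := ∀ i < l, P (j + i) + P k = P (k + i) + P j

/-- the block of `l` consecutive primes from `P k` meets every residue class mod `q` -/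
def Covers (k l q : ℕ) : Prop := ∀ c : ℕ, ∃ i < l, P (k + i) ≡ c [MOD q]

lemma P_prime (n : ℕ) : (P n).Prime := Nat.prime_nth_prime n

lemma P_mono : StrictMono P := Nat.nth_strictMono Nat.infinite_setOf_prime

lemma P_count {s : ℕ} (hs : s.Prime) : P (Nat.count Nat.Prime s) = s := Nat.nth_count hs

lemma add_two_le_P (n : ℕ) : n + 2 ≤ P n := Nat.add_two_le_nth_prime n

/-- primes between `P lo` and `P (lo + l - 1)` are in the block -/
lemma mem_block {lo l s : ℕ} (hl : 0 < l) (hs : s.Prime) (h1 : P lo ≤ s) (h2 : s ≤ P (lo + l - 1)) :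
    ∃ i < l, s = P (lo + i) := by
  have e := P_count hs
  have h3 : lo ≤ Nat.count Nat.Prime s := by
    rw [← e] at h1
    exact P_mono.le_iff_le.1 h1
  have h4 : Nat.count Nat.Prime s ≤ lo + l - 1 := by
    rw [← e] at h2
    exact P_mono.le_iff_le.1 h2
  refine ⟨Nat.count Nat.Prime s - lo, by omega, ?_⟩
  rw [← e]
  congr 1
  rw [e]; omega

lemma card_of_covers {k l q : ℕ} (hq : 0 < q) (h : Covers k l q) : q ≤ l := by
  have h1 : (Finset.range q) ⊆ (Finset.range l).image (fun i => P (k + i) % q) := by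
    intro c hc
    rw [mem_range] at hc
    obtain ⟨i, hi, hic⟩ := h c
    rw [mem_image]
    refine ⟨i, mem_range.2 hi, ?_⟩
    have h2 : P (k + i) % q = c % q := hic
    rw [h2, Nat.mod_eq_of_lt hc]
  have h2 := card_le_card h1
  rw [card_range] at h2
  exact h2.trans (card_image_le.trans (by rw [card_range]))

section chain

variable {lo hi l : ℕ}

lemma shift_up (hlh : lo < hi) (hS : SameP lo hi l) {i : ℕ} (h : i < l) :
    P (hi + i) = P (lo + i) + (P hi - P lo) := by
  have h1 := hS i h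
  have h2 := P_mono hlh
  omega

lemma prime_up (hlh : lo < hi) (hl : 0 < l) (hS : SameP lo hi l) {s : ℕ} (hs : s.Prime)
    (h1 : P lo ≤ s) (h2 : s ≤ P (lo + l - 1)) : (s + (P hi - P lo)).Prime := by
  obtain ⟨i, hi', rfl⟩ := mem_block hl hs h1 h2
  rw [← shift_up hlh hS hi']
  exact P_prime _

lemma prime_down (hlh : lo < hi) (hl : 0 < l) (hS : SameP lo hi l) {s : ℕ} (hs : s.Prime)
    (h1 : P hi ≤ s) (h2 : s ≤ P (lo + l - 1) + (P hi - P lo)) :
    (s - (P hi - P lo)).Prime ∧ P lo ≤ s - (P hi - P lo) := by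
  have h3 := shift_up hlh hS (i := l - 1) (by omega)
  have h4 : s ≤ P (hi + l - 1) := by
    rw [show hi + l - 1 = hi + (l - 1) by omega, h3, show lo + (l - 1) = lo + l - 1 by omega]
    exact h2
  obtain ⟨i, hi', rfl⟩ := mem_block hl hs h1 h4
  have h5 := shift_up hlh hS hi'
  have h6 : P (hi + i) - (P hi - P lo) = P (lo + i) := by omega
  rw [h6]
  exact ⟨P_prime _, P_mono.monotone (by omega)⟩

lemma chain_up (hlh : lo < hi) (hl : 0 < l) (hS : SameP lo hi l) {s : ℕ} (hs : s.Prime)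
    (h1 : P lo ≤ s) (i : ℕ) (h2 : i = 0 ∨ s + (i - 1) * (P hi - P lo) ≤ P (lo + l - 1)) :
    (s + i * (P hi - P lo)).Prime := by
  induction i with
  | zero => simpa using hs
  | succ i ih =>
    rcases h2 with h2 | h2
    · omega
    · rw [Nat.add_sub_cancel] at h2
      have h3 : (s + i * (P hi - P lo)).Prime := by
        apply ih
        right
        refine le_trans ?_ h2
        gcongr
        omega
      have h4 := prime_up hlh hl hS h3 (h1.trans (Nat.le_add_right _ _)) h2
      rwa [show s + (i + 1) * (P hi - P lo) = s + i * (P hi - P lo) + (P hi - P lo) by ring]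

lemma descend (hlh : lo < hi) (hl : 0 < l) (hS : SameP lo hi l) {s : ℕ} (hs : s.Prime)
    (h1 : P lo ≤ s) (h2 : s ≤ P (lo + l - 1) + (P hi - P lo)) :
    (P lo + (s - P lo) % (P hi - P lo)).Prime := by
  have hlt := P_mono hlh
  induction s using Nat.strong_induction_on with
  | _ s ih =>
    by_cases hsb : s < P hi
    · rw [Nat.mod_eq_of_lt (by omega)]
      rwa [show P lo + (s - P lo) = s by omega]
    · push Not at hsb
      obtain ⟨h3, h4⟩ := prime_down hlh hl hS hs hsb h2
      have h5 := ih (s - (P hi - P lo)) (by omega) h3 h4 (by omega)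
      have h6 : (s - P lo) % (P hi - P lo) = (s - (P hi - P lo) - P lo) % (P hi - P lo) := by
        rw [show s - P lo = (s - (P hi - P lo) - P lo) + (P hi - P lo) by omega, Nat.add_mod_right]
      rw [h6]
      exact h5

/-- the primes in the first period -/
noncomputable def S0 (lo hi : ℕ) : Finset ℕ := {s ∈ Ico (P lo) (P hi) | s.Prime}

lemma mem_S0 {s : ℕ} : s ∈ S0 lo hi ↔ (P lo ≤ s ∧ s < P hi) ∧ s.Prime := by
  simp [S0]

lemma chain_S0 (hlh : lo < hi) (hl : 0 < l) (hS : SameP lo hi l) (hm : P hi ≤ P (lo + l - 1))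
    {s : ℕ} (hs : s ∈ S0 lo hi) (i : ℕ)
    (hi' : i ≤ (P (lo + l - 1) - P hi) / (P hi - P lo) + 1) : (s + i * (P hi - P lo)).Prime := by
  rw [mem_S0] at hs
  apply chain_up hlh hl hS hs.2 hs.1.1
  by_cases h0 : i = 0
  · exact Or.inl h0
  · right
    have h1 : (i - 1) * (P hi - P lo) ≤ P (lo + l - 1) - P hi := by
      calc (i - 1) * (P hi - P lo) ≤ (P (lo + l - 1) - P hi) / (P hi - P lo) * (P hi - P lo) := by
            apply Nat.mul_le_mul_right; omega
        _ ≤ _ := Nat.div_mul_le_self _ _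
    omega

lemma count_le (hlh : lo < hi) (hl : 0 < l) (hS : SameP lo hi l) (hm : P hi ≤ P (lo + l - 1)) :
    l ≤ #(S0 lo hi) * ((P (lo + l - 1) - P hi) / (P hi - P lo) + 2) := by
  have hlt := P_mono hlh
  have ht : 0 < P hi - P lo := by omega
  have hP : ∀ i < l, P lo ≤ P (lo + i) ∧ P (lo + i) ≤ P (lo + l - 1) := fun i hi' =>
    ⟨P_mono.monotone (by omega), P_mono.monotone (by omega)⟩
  have h1 : (range l).card ≤ (S0 lo hi ×ˢ range ((P (lo + l - 1) - P hi) / (P hi - P lo) + 2)).card := by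
    apply card_le_card_of_injOn
      (fun i => (P lo + (P (lo + i) - P lo) % (P hi - P lo), (P (lo + i) - P lo) / (P hi - P lo)))
    · intro i hi'
      have hi2 : i < l := by simpa using hi'
      obtain ⟨h2, h3⟩ := hP i hi2
      have hd := descend hlh hl hS (P_prime (lo + i)) h2 (by omega)
      have hmod := Nat.mod_lt (P (lo + i) - P lo) ht
      simp only [coe_product, Set.mem_prod, mem_coe, mem_range]
      refine ⟨mem_S0.2 ⟨⟨by omega, by omega⟩, hd⟩, ?_⟩
      have h4 : (P (lo + i) - P lo) / (P hi - P lo) ≤ (P (lo + l - 1) - P hi + (P hi - P lo)) / (P hi - P lo) :=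
        Nat.div_le_div_right (by omega)
      rw [Nat.add_div_right _ ht] at h4
      omega
    · intro i hi' j hj' hij
      simp only [Prod.mk.injEq] at hij
      have hi2 : i < l := by simpa using hi'
      have hj2 : j < l := by simpa using hj'
      have e1 := Nat.mod_add_div (P (lo + i) - P lo) (P hi - P lo)
      have e2 := Nat.mod_add_div (P (lo + j) - P lo) (P hi - P lo)
      have h5 : (P (lo + i) - P lo) % (P hi - P lo) = (P (lo + j) - P lo) % (P hi - P lo) := by omega
      rw [h5, hij.2, e2] at e1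
      have h6 := (hP i hi2).1
      have h7 := (hP j hj2).1
      have h8 : P (lo + i) = P (lo + j) := by omega
      have := P_mono.injective h8
      omega
  rw [card_range, card_product, card_range] at h1
  exact h1

lemma two_le_S0 (hlh : lo < hi) (hl : P hi ≤ l) (hS : SameP lo hi l) (hm : P hi ≤ P (lo + l - 1)) :
    2 ≤ #(S0 lo hi) := by
  have hlt := P_mono hlh
  have hl0 : 0 < l := lt_of_lt_of_le (by omega) hl
  have ha : P lo ∈ S0 lo hi := mem_S0.2 ⟨⟨le_rfl, hlt⟩, P_prime lo⟩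
  by_contra hcon
  have h1 : #(S0 lo hi) = 1 := by
    have : 0 < #(S0 lo hi) := card_pos.2 ⟨_, ha⟩
    omega
  have h2 := count_le hlh hl0 hS hm
  rw [h1, one_mul] at h2
  have h3 : P lo ≤ (P (lo + l - 1) - P hi) / (P hi - P lo) + 1 := by omega
  have h4 := chain_S0 hlh hl0 hS hm ha (P lo) h3
  have h5 : P lo + P lo * (P hi - P lo) = P lo * (1 + (P hi - P lo)) := by ring
  rw [h5] at h4
  have h6 := (P_prime lo).two_le
  exact Nat.not_prime_mul (by omega) (by omega) h4

lemma small_dvd (hlh : lo < hi) (hl : P hi ≤ l) (hS : SameP lo hi l) (hm : P hi ≤ P (lo + l - 1))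
    {r : ℕ} (hr : r.Prime) (hrI : r ≤ (P (lo + l - 1) - P hi) / (P hi - P lo) + 2) :
    r ∣ P hi - P lo := by
  have hlt := P_mono hlh
  have hl0 : 0 < l := lt_of_lt_of_le (by omega) hl
  have ht : 0 < P hi - P lo := by omega
  by_contra hcon
  have key : ∀ s ∈ S0 lo hi, ∃ i, s + i * (P hi - P lo) = r := by
    intro s hs
    have hcop : Nat.Coprime (P hi - P lo) r := ((Nat.Prime.coprime_iff_not_dvd hr).2 hcon).symm
    obtain ⟨i, hi1, hi2⟩ : ∃ i < r, r ∣ s + i * (P hi - P lo) := by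
      have : NeZero r := ⟨hr.ne_zero⟩
      set u : (ZMod r)ˣ := ZMod.unitOfCoprime _ hcop
      refine ⟨(-(s : ZMod r) * (u⁻¹ : (ZMod r)ˣ)).val, ZMod.val_lt _, ?_⟩
      rw [← ZMod.natCast_eq_zero_iff]
      push_cast
      rw [ZMod.natCast_zmod_val]
      have hu : ((P hi - P lo : ℕ) : ZMod r) = (u : ZMod r) := by
        simp [u]
      have hu' : ((u⁻¹ : (ZMod r)ˣ) : ZMod r) * (u : ZMod r) = 1 := by
        rw [← Units.val_mul]; simp
      have hu2 : ((P hi - P lo : ℕ) : ZMod r) = (u : ZMod r) := hu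
      rw [hu2, mul_assoc, hu']
      ring
    have hp := chain_S0 hlh hl0 hS hm hs i (by omega)
    exact ⟨i, ((Nat.prime_dvd_prime_iff_eq hr hp).1 hi2).symm⟩
  obtain ⟨s1, hs1, s2, hs2, hne⟩ := one_lt_card.1 (show 1 < #(S0 lo hi) from two_le_S0 hlh hl hS hm)
  obtain ⟨i1, h1⟩ := key s1 hs1
  obtain ⟨i2, h2⟩ := key s2 hs2
  rw [mem_S0] at hs1 hs2
  apply hne
  -- both lie in a window of length `t` and are congruent mod `t`
  have h3 : s1 + i1 * (P hi - P lo) = s2 + i2 * (P hi - P lo) := by rw [h1, h2]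
  rcases lt_trichotomy i1 i2 with h | h | h
  · exfalso
    obtain ⟨c, rfl⟩ := Nat.exists_eq_add_of_lt h
    have : s1 = s2 + (c + 1) * (P hi - P lo) := by
      have h4 : (i1 + c + 1) * (P hi - P lo) = i1 * (P hi - P lo) + (c + 1) * (P hi - P lo) := by ring
      omega
    have h5 : P hi - P lo ≤ (c + 1) * (P hi - P lo) := Nat.le_mul_of_pos_left _ (by omega)
    omega
  · subst h; omega
  · exfalso
    obtain ⟨c, rfl⟩ := Nat.exists_eq_add_of_lt h
    have : s2 = s1 + (c + 1) * (P hi - P lo) := by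
      have h4 : (i2 + c + 1) * (P hi - P lo) = i2 * (P hi - P lo) + (c + 1) * (P hi - P lo) := by ring
      omega
    have h5 : P hi - P lo ≤ (c + 1) * (P hi - P lo) := Nat.le_mul_of_pos_left _ (by omega)
    omega

lemma S0_card_le (hlh : lo < hi) (hl : 0 < l) (hS : SameP lo hi l) (hm : P hi ≤ P (lo + l - 1)) :
    #(S0 lo hi) ≤ #{n ∈ Icc 1 (P hi) | ∀ j : Fin 2, (n + (![0, P hi - P lo] : Fin 2 → ℕ) j).Prime} := by
  apply card_le_card
  intro s hs
  have h1 := chain_S0 hlh hl hS hm hs 1 (Nat.le_add_left 1 _)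
  rw [mem_S0] at hs
  rw [mem_filter, mem_Icc]
  refine ⟨⟨hs.2.one_le, hs.1.2.le⟩, ?_⟩
  intro j
  fin_cases j
  · simpa using hs.2
  · simpa using h1

end chain

lemma final_asymp (C : ℝ) (A : ℕ) (n0 : ℕ) : ∃ b0 : ℕ, ∀ b : ℕ, b0 ≤ b → 1 < Real.log b ∧
    C * (Real.log (Real.log b)) ^ (2 * A) * (n0 + 2 * Real.log b) < (Real.log b) ^ 2 := by
  have hlim : Filter.Tendsto (fun b : ℕ => Real.log (b : ℝ)) Filter.atTop Filter.atTop :=
    Real.tendsto_log_atTop.comp tendsto_natCast_atTop_atTop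
  have h1 : (fun x : ℝ => Real.log x ^ ((2 * A : ℕ) : ℝ)) =o[Filter.atTop] fun x : ℝ => x ^ (1 : ℝ) :=
    isLittleO_log_rpow_rpow_atTop _ (by norm_num)
  have hc : 0 < 1 / (4 * (|C| + 1)) := by positivity
  have h2 := h1.bound hc
  have h3 := hlim.eventually (h2.and ((Filter.eventually_ge_atTop (max 2 (n0 : ℝ)))))
  obtain ⟨b0, hb0⟩ := Filter.eventually_atTop.1 h3
  refine ⟨b0, fun b hb => ?_⟩
  obtain ⟨h4, h5⟩ := hb0 b hb
  set u := Real.log (b : ℝ) with hu
  have hu2 : 2 ≤ u := (le_max_left _ _).trans h5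
  have hun : (n0 : ℝ) ≤ u := (le_max_right _ _).trans h5
  rw [Real.rpow_natCast, Real.rpow_one, Real.norm_of_nonneg (pow_nonneg (Real.log_nonneg (by linarith)) _),
    Real.norm_of_nonneg (by linarith)] at h4
  refine ⟨by linarith, ?_⟩
  have h6 : 0 ≤ Real.log u ^ (2 * A) := pow_nonneg (Real.log_nonneg (by linarith)) _
  have hC : C ≤ |C| + 1 := by linarith [le_abs_self C]
  have hC0 : 0 < |C| + 1 := by positivity
  calc C * (Real.log u) ^ (2 * A) * (n0 + 2 * u) ≤ (|C| + 1) * (Real.log u) ^ (2 * A) * (u + 2 * u) := by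
        gcongr
    _ ≤ (|C| + 1) * (1 / (4 * (|C| + 1)) * u) * (u + 2 * u) := by gcongr
    _ = (3 / 4) * u ^ 2 := by field_simp; ring
    _ < u ^ 2 := by nlinarith

/-- A pattern that meets every class modulo some prime does not occur twice, once the larger of the two
starting primes is large. -/
theorem no_repeat : ∃ b0 : ℕ, ∀ lo hi l q : ℕ, lo < hi → b0 ≤ P hi → SameP lo hi l → q.Prime →
    Covers lo l q → False := by
  obtain ⟨C, hC, A, x0, hT⟩ := Pool.Agent.H646.TuplesM.tuple_bound 2 (by norm_num)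
  obtain ⟨C', hC', b1, hR⟩ := rat_le
  obtain ⟨n0, hth⟩ := theta_lower
  obtain ⟨b2, hA⟩ := final_asymp (C * C' ^ A) A n0
  refine ⟨max 2 (max x0 (max b1 b2)), fun lo hi l q hlh hb hS hq hcov => ?_⟩
  simp only [max_le_iff] at hb
  obtain ⟨hb2, hbx, hb1, hb2'⟩ := hb
  have hlt := P_mono hlh
  have ht : 0 < P hi - P lo := by omega
  have hl0 : 0 < l := by
    obtain ⟨i, hi', _⟩ := hcov 0
    omega
  have hqb : P hi ≤ q := by
    obtain ⟨i, hi', hc⟩ := hcov ((q - 1) * (P hi - P lo))
    have h1 : q ∣ P (hi + i) := by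
      rw [shift_up hlh hS hi', ← Nat.modEq_zero_iff_dvd]
      have h2 := Nat.ModEq.add_right (P hi - P lo) hc
      refine h2.trans ?_
      rw [Nat.modEq_zero_iff_dvd]
      refine ⟨P hi - P lo, ?_⟩
      have := hq.two_le
      obtain ⟨q', rfl⟩ : ∃ q', q = q' + 1 := ⟨q - 1, by omega⟩
      rw [Nat.add_sub_cancel]
      ring
    have h3 := (Nat.prime_dvd_prime_iff_eq hq (P_prime _)).1 h1
    rw [h3]
    exact P_mono.monotone (by omega)
  have hlb : P hi ≤ l := hqb.trans (card_of_covers hq.pos hcov)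
  have hm : P hi ≤ P (lo + l - 1) := by
    apply P_mono.monotone
    have := add_two_le_P hi
    omega
  set I : ℕ := (P (lo + l - 1) - P hi) / (P hi - P lo) + 2 with hI
  -- the primorial of `I` divides the shift
  have hprim : primorial I ≤ P hi := by
    have h1 : primorial I ∣ P hi - P lo := by
      apply Finset.prod_primes_dvd
      · intro r hr
        rw [mem_filter] at hr
        exact hr.2.prime
      · intro r hr
        rw [mem_filter, mem_range] at hr
        exact small_dvd hlh hlb hS hm hr.2 (by omega)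
    exact (Nat.le_of_dvd ht h1).trans (Nat.sub_le _ _)
  have hbr : (2 : ℝ) ≤ P hi := by exact_mod_cast hb2
  have hθ : Chebyshev.theta (I : ℝ) ≤ Real.log (P hi) := by
    rw [Chebyshev.theta_eq_log_primorial, Nat.floor_natCast]
    apply Real.log_le_log
    · exact_mod_cast primorial_pos I
    · exact_mod_cast hprim
  have hlogb : 0 < Real.log (P hi) := Real.log_pos (by linarith)
  have hIle : (I : ℝ) ≤ n0 + 2 * Real.log (P hi) := by
    by_cases h : n0 ≤ I
    · have := hth I h
      have h0 : (0 : ℝ) ≤ n0 := by positivity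
      linarith
    · have : (I : ℝ) ≤ n0 := by exact_mod_cast (not_le.1 h).le
      linarith
  obtain ⟨hA1, hA2⟩ := hA (P hi) hb2'
  obtain ⟨hR1, hR2⟩ := hR (P hi) hb1
  have hrat := hR2 (P hi - P lo) ht (Nat.sub_le _ _)
  have hmono : StrictMono (![0, P hi - P lo] : Fin 2 → ℕ) := by
    intro i j hij
    fin_cases i <;> fin_cases j <;> simp_all
  have hcount := hT (P hi) hbx _ hmono
  have hprod : ∏ q ∈ (univ : Finset (Fin 2 × Fin 2)) with q.1 < q.2,
      Pool.Agent.H646.rat ((![0, P hi - P lo] : Fin 2 → ℕ) q.2 - (![0, P hi - P lo] : Fin 2 → ℕ) q.1) ^ A =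
      Pool.Agent.H646.rat (P hi - P lo) ^ A := by
    have : ({q ∈ (univ : Finset (Fin 2 × Fin 2)) | q.1 < q.2}) = {((0 : Fin 2), (1 : Fin 2))} := by
      decide
    rw [this, prod_singleton]
    simp
  rw [hprod] at hcount
  have hS0 : (#(S0 lo hi) : ℝ) ≤ C * (P hi : ℝ) / (Real.log (P hi)) ^ 2 *
      (C' * (Real.log (Real.log (P hi))) ^ 2) ^ A := by
    have h1 : (#(S0 lo hi) : ℝ) ≤
        (#{n ∈ Icc 1 (P hi) | ∀ j : Fin 2, (n + (![0, P hi - P lo] : Fin 2 → ℕ) j).Prime} : ℝ) := by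
      exact_mod_cast S0_card_le hlh hl0 hS hm
    refine h1.trans (hcount.trans ?_)
    gcongr
    exact Pool.Agent.H646.TuplesM.rat_nonneg _
  have hl' : (l : ℝ) ≤ #(S0 lo hi) * I := by exact_mod_cast count_le hlh hl0 hS hm
  have hlb' : (P hi : ℝ) ≤ l := by exact_mod_cast hlb
  have hfin : (P hi : ℝ) ≤ (C * (P hi : ℝ) / (Real.log (P hi)) ^ 2 *
      (C' * (Real.log (Real.log (P hi))) ^ 2) ^ A) * (n0 + 2 * Real.log (P hi)) := by
    refine hlb'.trans (hl'.trans ?_)
    gcongr
  have hPpos : (0 : ℝ) < P hi := by linarith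
  have hL2 : (0 : ℝ) < (Real.log (P hi)) ^ 2 := by positivity
  have e1 : (C * (P hi : ℝ) / (Real.log (P hi)) ^ 2 *
      (C' * (Real.log (Real.log (P hi))) ^ 2) ^ A) * (n0 + 2 * Real.log (P hi)) =
      (P hi : ℝ) * ((C * C' ^ A * (Real.log (Real.log (P hi))) ^ (2 * A) * (n0 + 2 * Real.log (P hi))) /
        (Real.log (P hi)) ^ 2) := by
    rw [mul_pow, ← pow_mul]
    ring
  rw [e1] at hfin
  have h7 : (C * C' ^ A * (Real.log (Real.log (P hi))) ^ (2 * A) * (n0 + 2 * Real.log (P hi))) /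
        (Real.log (P hi)) ^ 2 < 1 := by
    rw [div_lt_one hL2]
    exact hA2
  nlinarith

end Pool.Agent.H312R2
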