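import Mathlib
import Pool.Agent.H312R2.Blocks

open Finset

namespace Pool.Agent.H312R2

lemma P_succ_le (n : ℕ) : P (n + 1) ≤ 2 * P n := by
  obtain ⟨q, hq, h1, h2⟩ := Nat.exists_prime_lt_and_le_two_mul (P n) (P_prime n).ne_zero
  have h3 : P (n + 1) ≤ q := by
    have e := P_count hq
    rw [← e] at h1 ⊢
    exact P_mono.monotone (P_mono.lt_iff_lt.1 h1)
  omega

lemma P_add_le (n r : ℕ) : P (n + r) ≤ 2 ^ r * P n := by
  induction r with
  | zero => simp
  | succ r ih =>
    calc P (n + (r + 1)) ≤ 2 * P (n + r) := P_succ_le _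
      _ ≤ 2 * (2 ^ r * P n) := Nat.mul_le_mul_left _ ih
      _ = 2 ^ (r + 1) * P n := by ring

lemma sum_gap_one (N r : ℕ) : ∑ m ∈ range N, (P (m + r + 1) - P (m + r)) ≤ P (N + r) := by
  have h : ∀ N : ℕ, ∑ m ∈ range N, (P (m + r + 1) - P (m + r)) + P r = P (N + r) := by
    intro N
    induction N with
    | zero => simp
    | succ N ih =>
      rw [sum_range_succ]
      have h1 : P (N + r) < P (N + r + 1) := P_mono (Nat.lt_succ_self _)
      have h2 : N + 1 + r = N + r + 1 := by ring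
      rw [h2]
      omega
  have := h N
  omega

lemma sum_gap (N r : ℕ) : ∑ m ∈ range N, (P (m + r) - P m) ≤ r * P (N + r) := by
  induction r with
  | zero => simp
  | succ r ih =>
    have h1 : ∀ m ∈ range N, P (m + (r + 1)) - P m = (P (m + r) - P m) + (P (m + r + 1) - P (m + r)) := by
      intro m _
      have h2 : P m ≤ P (m + r) := P_mono.monotone (by omega)
      have h3 : P (m + r) < P (m + r + 1) := P_mono (Nat.lt_succ_self _)
      have h4 : m + (r + 1) = m + r + 1 := by ring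
      rw [h4]
      omega
    rw [sum_congr rfl h1, sum_add_distrib]
    have h5 := sum_gap_one N r
    have h6 : P (N + r) ≤ P (N + (r + 1)) := P_mono.monotone (by omega)
    calc _ ≤ r * P (N + r) + P (N + r) := add_le_add ih h5
      _ = (r + 1) * P (N + r) := by ring
      _ ≤ (r + 1) * P (N + (r + 1)) := Nat.mul_le_mul_left _ h6

/-- `m < π(x)` iff the `m`-th prime is at most `x` -/
lemma P_le_iff (x m : ℕ) : P m ≤ x ↔ m < Nat.primeCounting x := by
  have h : P m < x + 1 ↔ m < Nat.count Nat.Prime (x + 1) := by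
    constructor
    · intro h
      have h1 : Nat.count Nat.Prime (P m) < Nat.count Nat.Prime (x + 1) :=
        Nat.count_strict_mono (P_prime m) h
      rwa [Nat.count_nth_of_infinite Nat.infinite_setOfPred_prime] at h1
    · intro h
      exact Nat.nth_lt_of_lt_count h
  rw [Nat.primeCounting, Nat.primeCounting', ← h]
  omega

lemma few_wide (r x D : ℕ) :
    #{m ∈ range (Nat.primeCounting x) | D < P (m + r) - P m} * D ≤ r * 2 ^ (r + 1) * x := by
  set N := Nat.primeCounting x with hN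
  rcases Nat.eq_zero_or_pos N with h0 | h0
  · simp [h0]
  have h1 : #{m ∈ range N | D < P (m + r) - P m} * D ≤ ∑ m ∈ range N, (P (m + r) - P m) := by
    calc #{m ∈ range N | D < P (m + r) - P m} * D
        = #{m ∈ range N | D < P (m + r) - P m} • D := by rw [smul_eq_mul]
      _ ≤ ∑ m ∈ {m ∈ range N | D < P (m + r) - P m}, (P (m + r) - P m) := by
          apply card_nsmul_le_sum
          intro m hm
          exact (mem_filter.1 hm).2.le
      _ ≤ _ := sum_le_sum_of_subset (filter_subset _ _)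
  have h2 : P (N - 1) ≤ x := (P_le_iff x (N - 1)).2 (by omega)
  have h3 : P (N + r) ≤ 2 ^ (r + 1) * x := by
    calc P (N + r) = P (N - 1 + (r + 1)) := by congr 1; omega
      _ ≤ 2 ^ (r + 1) * P (N - 1) := P_add_le _ _
      _ ≤ _ := Nat.mul_le_mul_left _ h2
  calc _ ≤ _ := h1
    _ ≤ r * P (N + r) := sum_gap N r
    _ ≤ r * (2 ^ (r + 1) * x) := Nat.mul_le_mul_left _ h3
    _ = _ := by ring

lemma pi_lower : ∃ n0 : ℕ, ∀ x : ℕ, n0 ≤ x → (1 : ℝ) < Real.log x ∧
    (1 / 2 : ℝ) * (x / Real.log x) ≤ Nat.primeCounting x := by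
  obtain ⟨n0, h0⟩ := theta_lower
  refine ⟨max 3 n0, fun x hx => ?_⟩
  have hx3 : 3 ≤ x := (le_max_left _ _).trans hx
  have h1 := h0 x ((le_max_right _ _).trans hx)
  have hx3' : (3 : ℝ) ≤ x := by exact_mod_cast hx3
  have hlog : 1 < Real.log x := by
    rw [Real.lt_log_iff_exp_lt (by linarith)]
    exact lt_of_lt_of_le Real.exp_one_lt_d9 (by linarith)
  refine ⟨hlog, ?_⟩
  have h2 := Chebyshev.theta_le_pi_mul_log x
  rw [← mul_div_assoc, div_le_iff₀ (by linarith)]
  have h3 : (0 : ℝ) ≤ x := by linarith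
  linarith

/-- upper bound for `π` -/
lemma pi_upper : ∃ n0 : ℕ, ∀ x : ℕ, n0 ≤ x → (Nat.primeCounting x : ℝ) ≤ 4 * (x / Real.log x) := by
  obtain ⟨K, hK⟩ := Pool.Agent.Helper112.log_pow_le 1 1 (1 / 2) (by norm_num)
  refine ⟨max 3 K, fun x hx => ?_⟩
  have hx3 : 3 ≤ x := (le_max_left _ _).trans hx
  have hx3' : (3 : ℝ) ≤ x := by exact_mod_cast hx3
  have h1 := hK x ((le_max_right _ _).trans hx)
  rw [pow_one, one_mul, ← Real.sqrt_eq_rpow] at h1
  have hlog : 1 < Real.log x := by
    rw [Real.lt_log_iff_exp_lt (by linarith)]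
    exact lt_of_lt_of_le Real.exp_one_lt_d9 (by linarith)
  have h2 := Chebyshev.pi_le_log4_mul_div (x := (x : ℝ)) (by linarith)
  rw [Nat.floor_natCast, Real.log_sqrt (by linarith)] at h2
  have h4 : Real.log 4 < 1.39 := by
    rw [show (4 : ℝ) = 2 ^ 2 by norm_num, Real.log_pow]
    have := Real.log_two_lt_d9
    push_cast
    linarith
  have hs : Real.sqrt x ≤ x / Real.log x := by
    rw [le_div_iff₀ (by linarith)]
    calc Real.sqrt x * Real.log x ≤ Real.sqrt x * Real.sqrt x :=
          mul_le_mul_of_nonneg_left h1 (Real.sqrt_nonneg _)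
      _ = x := Real.mul_self_sqrt (by linarith)
  have h5 : Real.log 4 * x / (Real.log x / 2) = 2 * Real.log 4 * (x / Real.log x) := by
    field_simp
  rw [h5] at h2
  have h6 : 0 ≤ (x : ℝ) / Real.log x := by positivity
  nlinarith

end Pool.Agent.H312R2
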