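import Mathlib
import Pool.Agent.H312R2.Diam
import Pool.Agent.H312R2.Avg

open Finset

namespace Pool.Agent.H312R2

/-- the pattern of the `k` consecutive primes from `P m` on -/
noncomputable def pat (k m : ℕ) : Finset ℕ := (range k).image (fun i => P (m + i) - P m)

/-- `H` misses a residue class modulo every prime -/
def Admissible (H : Finset ℕ) : Prop := ∀ p : ℕ, p.Prime → ∃ r : ℕ, r < p ∧ ∀ h ∈ H, h % p ≠ r

/-- `n` realises `H` as consecutive primes -/
def Realises (H : Finset ℕ) (n : ℕ) : Prop :=
  (∀ h ∈ H, (n + h).Prime) ∧ ∀ m : ℕ, (n + m).Prime → (∃ h ∈ H, m ≤ h) → m ∈ H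

lemma P_add_sub (m i : ℕ) : P m + (P (m + i) - P m) = P (m + i) := by
  have : P m ≤ P (m + i) := P_mono.monotone (by omega)
  omega

lemma pat_card (k m : ℕ) : #(pat k m) = k := by
  unfold pat
  rw [card_image_of_injective, card_range]
  intro i j hij
  simp only at hij
  have h1 : P (m + i) = P (m + j) := by
    rw [← P_add_sub m i, ← P_add_sub m j, hij]
  have := P_mono.injective h1
  omega

lemma zero_mem_pat {k : ℕ} (hk : 1 ≤ k) (m : ℕ) : 0 ∈ pat k m := by
  unfold pat
  rw [mem_image]
  exact ⟨0, mem_range.2 hk, by simp⟩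

lemma mem_pat_le {k m h : ℕ} (hh : h ∈ pat k m) : h ≤ P (m + (k - 1)) - P m := by
  unfold pat at hh
  obtain ⟨i, hi, rfl⟩ := mem_image.1 hh
  rw [mem_range] at hi
  have : P (m + i) ≤ P (m + (k - 1)) := P_mono.monotone (by omega)
  omega

lemma pat_realises (k m : ℕ) : Realises (pat k m) (P m) := by
  constructor
  · intro h hh
    unfold pat at hh
    obtain ⟨i, hi, rfl⟩ := mem_image.1 hh
    rw [P_add_sub]
    exact P_prime _
  · intro t ht hh
    obtain ⟨h, hh, hth⟩ := hh
    unfold pat at hh
    obtain ⟨i, hi, rfl⟩ := mem_image.1 hh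
    rw [mem_range] at hi
    have h1 : P m + t ≤ P (m + i) := by
      rw [← P_add_sub m i]; omega
    have h2 : P m ≤ P m + t := Nat.le_add_right _ _
    rw [show m + i = m + (i + 1) - 1 by omega] at h1
    obtain ⟨j, hj, hj2⟩ := mem_block (lo := m) (l := i + 1) (by omega) ht h2 h1
    unfold pat
    rw [mem_image]
    refine ⟨j, mem_range.2 (by omega), ?_⟩
    omega

/-- a pattern is determined by the place where it is realised and its length -/
lemma realises_eq {k n : ℕ} (hk : 1 ≤ k) {H : Finset ℕ} (hc : #H = k) (h0 : 0 ∈ H)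
    (h : Realises H n) : n.Prime ∧ H = pat k (Nat.count Nat.Prime n) := by
  have hn : n.Prime := by simpa using h.1 0 h0
  refine ⟨hn, ?_⟩
  set m := Nat.count Nat.Prime n with hm
  have hPm : P m = n := P_count hn
  -- H is an initial segment of the differences
  have hsub : H ⊆ (range (Nat.count Nat.Prime (n + H.sup id) - m + 1)).image
      (fun i => P (m + i) - P m) := by
    intro t ht
    have h1 := h.1 t ht
    have h2 : P (Nat.count Nat.Prime (n + t)) = n + t := P_count h1
    have h3 : m ≤ Nat.count Nat.Prime (n + t) := Nat.count_monotone _ (by omega)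
    have h4 : t ≤ H.sup id := Finset.le_sup (f := id) ht
    have h5 : Nat.count Nat.Prime (n + t) ≤ Nat.count Nat.Prime (n + H.sup id) :=
      Nat.count_monotone _ (by omega)
    rw [mem_image]
    refine ⟨Nat.count Nat.Prime (n + t) - m, mem_range.2 (by omega), ?_⟩
    rw [show m + (Nat.count Nat.Prime (n + t) - m) = Nat.count Nat.Prime (n + t) by omega, h2, hPm]
    omega
  -- if `P (m+i) - P m ∈ H` then also for smaller `i`
  have hdown : ∀ i j : ℕ, j ≤ i → P (m + i) - P m ∈ H → P (m + j) - P m ∈ H := by
    intro i j hji hi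
    apply h.2
    · rw [← hPm, P_add_sub]; exact P_prime _
    · refine ⟨_, hi, ?_⟩
      have : P (m + j) ≤ P (m + i) := P_mono.monotone (by omega)
      omega
  have hsub2 : H ⊆ pat k m := by
    intro t ht
    obtain ⟨i, hi, rfl⟩ := mem_image.1 (hsub ht)
    -- `i < k`, for otherwise `H` would have more than `k` elements
    by_contra hcon
    have hik : k ≤ i := by
      by_contra hlt
      push Not at hlt
      exact hcon (mem_image.2 ⟨i, mem_range.2 hlt, rfl⟩)
    have h6 : pat (k + 1) m ⊆ H := by
      intro s hs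
      obtain ⟨j, hj, rfl⟩ := mem_image.1 hs
      rw [mem_range] at hj
      exact hdown i j (by omega) ht
    have := card_le_card h6
    rw [pat_card, hc] at this
    omega
  exact eq_of_subset_of_card_le hsub2 (by rw [pat_card, hc])

lemma inadm_few {k : ℕ} {H : Finset ℕ} (hc : #H = k) (hH : ¬ Admissible H) (N : ℕ) :
    #{m ∈ range N | pat k m = H} ≤ k := by
  unfold Admissible at hH
  push Not at hH
  obtain ⟨p, hp, hcov⟩ := hH
  have hpk : p ≤ k := by
    have h1 : range p ⊆ H.image (· % p) := by
      intro r hr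
      rw [mem_range] at hr
      obtain ⟨h, hh, hr2⟩ := hcov r hr
      exact mem_image.2 ⟨h, hh, hr2⟩
    have h2 := card_le_card h1
    rw [card_range] at h2
    exact h2.trans (card_image_le.trans (by rw [hc]))
  have h1 : {m ∈ range N | pat k m = H} ⊆ range k := by
    intro m hm
    rw [mem_filter] at hm
    obtain ⟨h, hh, hr⟩ := hcov ((p - P m % p) % p) (Nat.mod_lt _ hp.pos)
    have h2 : (P m + h) % p = 0 := by
      have hlt := Nat.mod_lt (P m) hp.pos
      rw [Nat.add_mod, hr]
      rcases Nat.eq_zero_or_pos (P m % p) with h0 | h0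
      · rw [h0]; simp
      · rw [Nat.mod_eq_of_lt (show p - P m % p < p by omega),
          show P m % p + (p - P m % p) = p by omega, Nat.mod_self]
    have h3 : (P m + h).Prime := (pat_realises k m).1 h (by rw [hm.2]; exact hh)
    have h4 : p = P m + h := (Nat.prime_dvd_prime_iff_eq hp h3).1 (Nat.dvd_of_mod_eq_zero h2)
    have h5 := add_two_le_P m
    rw [mem_range]
    omega
  exact (card_le_card h1).trans (by rw [card_range])

lemma count_pat_le (k x : ℕ) (H : Finset ℕ) :
    open Classical in
    #{m ∈ range (Nat.primeCounting x) | pat k m = H} ≤ #{n ∈ Icc 1 x | Realises H n} := by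
  classical
  apply card_le_card_of_injOn P
  · intro m hm
    have hm' := mem_filter.1 (mem_coe.1 hm)
    rw [mem_range] at hm'
    rw [mem_coe, mem_filter, mem_Icc]
    refine ⟨⟨(P_prime m).one_le, (P_le_iff x m).2 hm'.1⟩, ?_⟩
    rw [← hm'.2]
    exact pat_realises k m
  · exact P_mono.injective.injOn

/-- the `k`-element subsets of `[0, D]` which contain `0` -/
def base (k D : ℕ) : Finset (Finset ℕ) := {H ∈ powersetCard k (range (D + 1)) | 0 ∈ H}

lemma base_card (k D : ℕ) : #(base k D) ≤ (D + 1) ^ (k - 1) := by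
  have h1 : #(base k D) ≤ #(powersetCard (k - 1) (range (D + 1))) := by
    apply card_le_card_of_injOn (fun H => H.erase 0)
    · intro H hH
      have hH' := mem_filter.1 (mem_coe.1 hH)
      rw [mem_powersetCard] at hH'
      rw [mem_coe, mem_powersetCard]
      refine ⟨?_, ?_⟩
      · exact (erase_subset 0 H).trans hH'.1.1
      · rw [card_erase_of_mem hH'.2, hH'.1.2]
    · intro H hH H' hH' h
      have h1 := (mem_filter.1 (mem_coe.1 hH)).2
      have h2 := (mem_filter.1 (mem_coe.1 hH')).2
      simp only at h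
      rw [← insert_erase h1, ← insert_erase h2, h]
  refine h1.trans ?_
  rw [card_powersetCard, card_range]
  exact Nat.choose_le_pow _ _

end Pool.Agent.H312R2
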