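import Mathlib
import Pool.Agent.H312R2.Pat

open Finset

namespace Pool.Agent.H312R2

open Pool.Agent.H646 (rat)
open Pool.Agent.H646.TuplesM (rat_ge_one rat_nonneg sum_le_of_inj tuple_bound)

/-- increasing enumeration of a `k`-element set -/
noncomputable def en (k : ℕ) (H : Finset ℕ) : Fin k → ℕ :=
  if h : #H = k then H.orderEmbOfFin h else fun _ => 0

lemma en_mono {k : ℕ} {H : Finset ℕ} (h : #H = k) : StrictMono (en k H) := by
  unfold en; rw [dif_pos h]; exact (H.orderEmbOfFin h).strictMono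

lemma en_mem {k : ℕ} {H : Finset ℕ} (h : #H = k) (j : Fin k) : en k H j ∈ H := by
  unfold en; rw [dif_pos h]; exact H.orderEmbOfFin_mem h j

lemma en_image {k : ℕ} {H : Finset ℕ} (h : #H = k) : univ.image (en k H) = H := by
  unfold en; rw [dif_pos h]; exact H.image_orderEmbOfFin_univ h

lemma mem_base {k D : ℕ} {H : Finset ℕ} :
    H ∈ base k D ↔ (H ⊆ range (D + 1) ∧ #H = k) ∧ 0 ∈ H := by
  unfold base; rw [mem_filter, mem_powersetCard]

lemma en_zero {k : ℕ} (hk : 0 < k) {H : Finset ℕ} (h : #H = k) (h0 : 0 ∈ H) :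
    en k H ⟨0, hk⟩ = 0 := by
  rw [← en_image h] at h0
  obtain ⟨j, _, hj⟩ := mem_image.1 h0
  have : en k H ⟨0, hk⟩ ≤ en k H j := (en_mono h).monotone (Fin.mk_le_of_le_val (Nat.zero_le _))
  omega

/-- the pairs of indices -/
abbrev pairs (k : ℕ) : Finset (Fin k × Fin k) := (univ : Finset (Fin k × Fin k)).filter (fun q => q.1 < q.2)

/-- the arithmetic factor in the upper bound for tuples -/
noncomputable def Fac (k A : ℕ) (H : Finset ℕ) : ℝ :=
  ∏ q ∈ pairs k, rat (en k H q.2 - en k H q.1) ^ A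

lemma Fac_nonneg (k A : ℕ) (H : Finset ℕ) : 0 ≤ Fac k A H :=
  prod_nonneg fun _ _ => pow_nonneg (rat_nonneg _) _

lemma Fac_pow (k A n : ℕ) (H : Finset ℕ) : Fac k A H ^ n = Fac k (A * n) H := by
  unfold Fac
  rw [← prod_pow]
  apply prod_congr rfl
  intro q _
  rw [← pow_mul]

theorem Fac_sum (k : ℕ) (hk : 2 ≤ k) (A : ℕ) : ∃ C > (0 : ℝ), ∀ D : ℕ,
    ∑ H ∈ base k D, Fac k A H ≤ C * ((D + 1) ^ (k - 1) : ℕ) := by
  obtain ⟨C, hC, hav⟩ := avg (pairs k) ⟨(⟨0, by omega⟩, ⟨1, by omega⟩), by simp⟩ A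
  refine ⟨C, hC, fun D => ?_⟩
  set Dv : Fin k → ℕ := fun j => if j.1 = 0 then 1 else D + 1 with hDv
  set T : Finset (Fin k → ℕ) := (Fintype.piFinset (fun j => range (Dv j))).filter
    (fun u => ∀ q ∈ pairs k, u q.1 < u q.2) with hT
  have h1 : ∑ H ∈ base k D, Fac k A H ≤ ∑ u ∈ T, ∏ q ∈ pairs k, rat (u q.2 - u q.1) ^ A := by
    apply sum_le_of_inj (base k D) (en k) T (fun u => ∏ q ∈ pairs k, rat (u q.2 - u q.1) ^ A)
    · intro u
      exact prod_nonneg fun _ _ => pow_nonneg (rat_nonneg _) _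
    · intro H hH
      rw [mem_base] at hH
      rw [hT, mem_filter, Fintype.mem_piFinset]
      refine ⟨?_, ?_⟩
      · intro j
        rw [hDv, mem_range]
        simp only
        split_ifs with hj
        · have : j = ⟨0, by omega⟩ := Fin.ext hj
          rw [this, en_zero (by omega) hH.1.2 hH.2]
          omega
        · have := hH.1.1 (en_mem hH.1.2 j)
          rwa [mem_range] at this
      · intro q hq
        exact en_mono hH.1.2 (mem_filter.1 hq).2
    · intro H hH H' hH' h
      rw [mem_base] at hH hH'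
      rw [← en_image hH.1.2, ← en_image hH'.1.2, h]
  refine h1.trans ?_
  apply hav k Dv T (fun q u => u q.2 - u q.1) (fun q => q.2) (D + 1)
  · intro u hu j
    rw [hT, mem_filter, Fintype.mem_piFinset] at hu
    exact mem_range.1 (hu.1 j)
  · intro q hq u hu
    rw [hT, mem_filter, Fintype.mem_piFinset] at hu
    have h2 := hu.2 q hq
    have h3 := mem_range.1 (hu.1 q.2)
    have h4 : Dv q.2 ≤ D + 1 := by
      rw [hDv]; simp only; split_ifs <;> omega
    constructor
    · omega
    · omega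
  · intro q hq u hu v hv huv h
    rw [hT, mem_filter, Fintype.mem_piFinset] at hu hv
    have h2 := hu.2 q hq
    have h3 := hv.2 q hq
    have h4 := huv q.1 (mem_filter.1 hq).2.ne
    omega
  · intro q hq
    have hq2 : q.2.1 ≠ 0 := by
      have := (mem_filter.1 hq).2
      have h5 : q.1.1 < q.2.1 := this
      omega
    have h5 : ∀ j ∈ (univ : Finset (Fin k)), (if j = q.2 then 1 else Dv j) =
        (if j ∈ (univ.erase (⟨0, by omega⟩ : Fin k)).erase q.2 then D + 1 else 1) := by
      intro j _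
      by_cases h6 : j = q.2
      · rw [if_pos h6, if_neg (by simp [h6])]
      · rw [if_neg h6, hDv]
        simp only
        by_cases h7 : j.1 = 0
        · have h8 : j = ⟨0, by omega⟩ := Fin.ext h7
          rw [if_pos h7, if_neg (by simp [h8])]
        · have h8 : j ≠ ⟨0, by omega⟩ := fun h => h7 (by rw [h])
          rw [if_neg h7, if_pos (by simp [h8, h6])]
    rw [prod_congr rfl h5, Finset.prod_ite_mem, univ_inter, prod_const]
    have h9 : #((univ.erase (⟨0, by omega⟩ : Fin k)).erase q.2) = k - 2 := by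
      rw [card_erase_of_mem, card_erase_of_mem (mem_univ _), card_univ, Fintype.card_fin]
      · omega
      · rw [mem_erase]
        exact ⟨fun h => hq2 (by rw [h]), mem_univ _⟩
    rw [h9, ← pow_succ]
    apply le_of_eq
    congr 1
    omega

/-- upper bound for the number of translates in which all elements of a pattern are prime -/
theorem cnt_upper (k : ℕ) (hk : 1 ≤ k) : ∃ C > (0 : ℝ), ∃ A x₀ : ℕ, ∀ x : ℕ, x₀ ≤ x →
    ∀ H : Finset ℕ, #H = k →
      (#{n ∈ Icc 1 x | ∀ h ∈ H, (n + h).Prime} : ℝ) ≤ C * x / (Real.log x) ^ k * Fac k A H := by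
  obtain ⟨C, hC, A, x₀, h⟩ := tuple_bound k hk
  refine ⟨C, hC, A, x₀, fun x hx H hH => ?_⟩
  refine le_trans (le_of_eq ?_) (h x hx (en k H) (en_mono hH))
  congr 2
  apply filter_congr
  intro n _
  constructor
  · intro h1 j
    exact h1 _ (en_mem hH j)
  · intro h1 t ht
    rw [← en_image hH] at ht
    obtain ⟨j, _, rfl⟩ := mem_image.1 ht
    exact h1 j

/-- bad positions: wide blocks, or blocks whose pattern is in a thin family -/
theorem bad_count (k : ℕ) (hk : 2 ≤ k) (x D : ℕ) (τ : ℝ) (hτ : 0 ≤ τ)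
    (S : Finset (Finset ℕ))
    (hS : ∀ H ∈ base k D, H ∉ S → (#{m ∈ range (Nat.primeCounting x) | pat k m = H} : ℝ) ≤ τ) :
    (#{m ∈ range (Nat.primeCounting x) | pat k m ∉ S} : ℝ) ≤
      #{m ∈ range (Nat.primeCounting x) | D < P (m + (k - 1)) - P m} + ((D + 1) ^ (k - 1) : ℕ) * τ := by
  classical
  set N := Nat.primeCounting x with hN
  have h1 : {m ∈ range N | pat k m ∉ S} ⊆ {m ∈ range N | D < P (m + (k - 1)) - P m} ∪
      ((base k D).filter (fun H => H ∉ S)).biUnion (fun H => {m ∈ range N | pat k m = H}) := by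
    intro m hm
    rw [mem_filter] at hm
    by_cases hw : D < P (m + (k - 1)) - P m
    · exact mem_union_left _ (mem_filter.2 ⟨hm.1, hw⟩)
    · apply mem_union_right
      rw [mem_biUnion]
      refine ⟨pat k m, ?_, mem_filter.2 ⟨hm.1, rfl⟩⟩
      rw [mem_filter, mem_base]
      refine ⟨⟨⟨?_, pat_card k m⟩, zero_mem_pat (by omega) m⟩, hm.2⟩
      intro h hh
      have := mem_pat_le hh
      rw [mem_range]
      omega
  have h2 : (#{m ∈ range N | pat k m ∉ S} : ℝ) ≤ #{m ∈ range N | D < P (m + (k - 1)) - P m} +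
      ∑ H ∈ (base k D).filter (fun H => H ∉ S), (#{m ∈ range N | pat k m = H} : ℝ) := by
    have h3 := (card_le_card h1).trans (card_union_le _ _)
    have h4 := h3.trans (Nat.add_le_add_left card_biUnion_le _)
    exact_mod_cast h4
  refine h2.trans ?_
  gcongr
  · calc ∑ H ∈ (base k D).filter (fun H => H ∉ S), (#{m ∈ range N | pat k m = H} : ℝ)
        ≤ ∑ H ∈ (base k D).filter (fun H => H ∉ S), τ := by
          apply sum_le_sum
          intro H hH
          rw [mem_filter] at hH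
          exact hS H hH.1 hH.2
      _ = #((base k D).filter (fun H => H ∉ S)) * τ := by rw [sum_const, nsmul_eq_mul]
      _ ≤ _ := by
          gcongr
          exact_mod_cast (card_le_card (filter_subset _ _)).trans (base_card k D)

/-- few blocks are wider than a large multiple of `log x` -/
theorem wide_few (k : ℕ) (hk : 2 ≤ k) (η : ℝ) (hη : 0 < η) : ∃ C0 : ℝ, 2 ≤ C0 ∧ ∀ C : ℝ, C0 ≤ C →
    ∀ x : ℕ, 1 < Real.log x →
      (#{m ∈ range (Nat.primeCounting x) | ⌊C * Real.log x⌋₊ < P (m + (k - 1)) - P m} : ℝ) ≤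
        η * (x / Real.log x) := by
  refine ⟨max 2 ((k - 1 : ℕ) * 2 ^ (k + 1) / η), le_max_left _ _, fun C hC x hx => ?_⟩
  have hC2 : 2 ≤ C := (le_max_left _ _).trans hC
  have hC3 : ((k - 1 : ℕ) : ℝ) * 2 ^ (k + 1) ≤ C * η := by
    have := (le_max_right _ _).trans hC
    rwa [div_le_iff₀ hη] at this
  set D := ⌊C * Real.log x⌋₊ with hD
  set W := #{m ∈ range (Nat.primeCounting x) | D < P (m + (k - 1)) - P m} with hW
  have h1 : (W : ℝ) * D ≤ (k - 1 : ℕ) * 2 ^ k * x := by
    have := few_wide (k - 1) x D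
    rw [show k - 1 + 1 = k by omega] at this
    exact_mod_cast this
  have h2 : C * Real.log x / 2 ≤ D := by
    have h3 : C * Real.log x < D + 1 := Nat.lt_floor_add_one _
    nlinarith
  have hW0 : (0 : ℝ) ≤ W := Nat.cast_nonneg _
  have hCl : 0 < C * Real.log x / 2 := by positivity
  have h3 : (W : ℝ) * (C * Real.log x / 2) ≤ (k - 1 : ℕ) * 2 ^ k * x := 
    (mul_le_mul_of_nonneg_left h2 hW0).trans h1
  have h4 : (W : ℝ) ≤ (k - 1 : ℕ) * 2 ^ (k + 1) * x / (C * Real.log x) := by
    rw [le_div_iff₀ (by positivity), pow_succ]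
    linarith
  refine h4.trans ?_
  rw [div_le_iff₀ (by positivity)]
  have h5 : η * (x / Real.log x) * (C * Real.log x) = C * η * x := by
    field_simp
  rw [h5]
  exact mul_le_mul_of_nonneg_right hC3 (Nat.cast_nonneg _)

end Pool.Agent.H312R2
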