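import Mathlib
import Pool.Agent.H312R2.Blocks

open Finset

namespace Pool.Agent.H312R2

/-- For large `k` the block of consecutive primes from `P k` already meets every class modulo some prime
at a length which is polynomial in `P k`, with an exponent as close to `2` as one likes. -/
theorem exists_covers (ε : ℝ) (hε : 0 < ε) : ∃ k0 : ℕ, ∀ k : ℕ, k0 ≤ k →
    ∃ l q : ℕ, q.Prime ∧ Covers k l q ∧ (l : ℝ) ≤ (P k : ℝ) ^ (2 + ε) := by
  obtain ⟨L, hL4, hLε⟩ : ∃ L : ℕ, 4 ≤ L ∧ 8 ≤ ε * (L - 1) := by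
    obtain ⟨N, hN⟩ := exists_nat_ge (8 / ε + 5)
    refine ⟨N, ?_, ?_⟩
    · have : (5 : ℝ) ≤ N := le_trans (by have : 0 < 8 / ε := by positivity
                                         linarith) hN
      have h5 : 5 ≤ N := by exact_mod_cast this
      omega
    · have : 8 / ε ≤ N - 1 := by linarith
      rw [div_le_iff₀ hε] at this
      linarith
  obtain ⟨K0, hK0⟩ := three_primes L hL4
  -- for `y` large choose `K` minimal with `4 y K ^ 2 ≤ K ^ (2 L)`
  set e : ℕ := 2 * L - 2 with he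
  have he6 : 6 ≤ e := by omega
  refine ⟨(2 * (K0 + 2)) ^ e + 2 ^ (8 * L * L), fun k hk => ?_⟩
  set y : ℕ := P k with hy
  have hky : k ≤ y := by have := add_two_le_P k; omega
  have hy1 : (2 * (K0 + 2)) ^ e ≤ y := le_trans (le_trans (Nat.le_add_right _ _) hk) hky
  have hy2 : 2 ^ (8 * L * L) ≤ y := by
    exact le_trans (le_trans (Nat.le_add_left _ _) hk) hky
  have hex : ∃ K : ℕ, 4 * y ≤ K ^ e := ⟨4 * y, Nat.le_self_pow (by omega) _⟩
  classical
  set K : ℕ := Nat.find hex with hK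
  have hKs : 4 * y ≤ K ^ e := Nat.find_spec hex
  have hKm : ∀ K' < K, K' ^ e < 4 * y := fun K' h => by
    have := Nat.find_min hex h
    omega
  have hK0K : K0 + 2 ≤ K := by
    by_contra h
    push Not at h
    have h1 : K ^ e ≤ (K0 + 2) ^ e := Nat.pow_le_pow_left h.le e
    have h2 : 4 * (K0 + 2) ^ e ≤ (2 * (K0 + 2)) ^ e := by
      rw [mul_pow]
      have : 2 ^ 2 ≤ 2 ^ e := Nat.pow_le_pow_right (by norm_num) (by omega)
      nlinarith
    have h3 : 0 < (K0 + 2) ^ e := by positivity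
    omega
  have hK2y : K ^ 2 ≤ y := by
    have h1 := hKm (K - 1) (by omega)
    -- `K ≤ 2 (K - 1)`, so `K ^ 2 ≤ ...`
    have h2 : K ≤ 2 * (K - 1) := by omega
    have h3 : K ^ e ≤ 2 ^ e * (K - 1) ^ e := by
      rw [← mul_pow]; exact Nat.pow_le_pow_left h2 e
    have h4 : K ^ e < 2 ^ e * (4 * y) := lt_of_le_of_lt h3 (by
      apply Nat.mul_lt_mul_of_pos_left h1; positivity)
    by_contra h
    push Not at h
    have h5 : y ^ 3 ≤ K ^ 6 := by
      calc y ^ 3 ≤ (K ^ 2) ^ 3 := Nat.pow_le_pow_left h.le 3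
        _ = K ^ 6 := by rw [← pow_mul]
    have h6 : K ^ 6 ≤ K ^ e := Nat.pow_le_pow_right (by omega) he6
    have h7 : y ^ 3 < 2 ^ e * (4 * y) := lt_of_le_of_lt (h5.trans h6) h4
    have h8 : 2 ^ e * 4 ≤ y := by
      calc 2 ^ e * 4 = 2 ^ (e + 2) := by rw [pow_add]; norm_num
        _ ≤ 2 ^ (8 * L * L) := Nat.pow_le_pow_right (by norm_num) (by
              have : 4 * L ≤ L * L := Nat.mul_le_mul_right L hL4
              have h' : 8 * L * L = 8 * (L * L) := by ring
              omega)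
        _ ≤ y := hy2
    have h9 : 2 ^ e * (4 * y) ≤ y * y := by nlinarith
    have h10 : y * y ≤ y ^ 3 := by
      have : 1 ≤ y := by omega
      nlinarith
    omega
  set X : ℕ := K ^ (4 * L) with hX
  have h4yX : 4 * y ≤ X := hKs.trans (Nat.pow_le_pow_right (by omega) (by omega))
  -- the size of `X`
  have hypos : 0 < y := (P_prime k).pos
  have hyr : (1 : ℝ) ≤ y := by exact_mod_cast hypos
  have hXle : (X : ℝ) ≤ (y : ℝ) ^ (2 + ε) := by
    have h1 := hKm (K - 1) (by omega)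
    have h2 : K ≤ 2 * (K - 1) := by omega
    have h3 : K ^ e ≤ 2 ^ (2 * L) * y := by
      calc K ^ e ≤ (2 * (K - 1)) ^ e := Nat.pow_le_pow_left h2 e
        _ = 2 ^ e * (K - 1) ^ e := by rw [mul_pow]
        _ ≤ 2 ^ e * (4 * y) := Nat.mul_le_mul_left _ h1.le
        _ = 2 ^ (2 * L) * y := by
            rw [show 2 * L = e + 2 by omega, pow_add]; ring
    have h4 : X ^ e ≤ y ^ (4 * L + 1) := by
      calc X ^ e = (K ^ e) ^ (4 * L) := by rw [hX, ← pow_mul, ← pow_mul, Nat.mul_comm]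
        _ ≤ (2 ^ (2 * L) * y) ^ (4 * L) := Nat.pow_le_pow_left h3 _
        _ = 2 ^ (8 * L * L) * y ^ (4 * L) := by
            rw [mul_pow, ← pow_mul]; congr 2; ring
        _ ≤ y * y ^ (4 * L) := Nat.mul_le_mul_right _ hy2
        _ = y ^ (4 * L + 1) := by rw [pow_succ, Nat.mul_comm]
    have h5 : (X : ℝ) ^ e ≤ ((y : ℝ) ^ (2 + ε)) ^ e := by
      calc (X : ℝ) ^ e ≤ (y : ℝ) ^ (4 * L + 1) := by exact_mod_cast h4
        _ = (y : ℝ) ^ ((4 * L + 1 : ℕ) : ℝ) := by rw [Real.rpow_natCast]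
        _ ≤ (y : ℝ) ^ ((2 + ε) * e) := by
            apply Real.rpow_le_rpow_of_exponent_le hyr
            have he' : (e : ℝ) = 2 * L - 2 := by
              rw [he, Nat.cast_sub (by omega)]; push_cast; ring
            rw [he']
            push_cast
            nlinarith
        _ = ((y : ℝ) ^ (2 + ε)) ^ e := by
            rw [← Real.rpow_natCast ((y : ℝ) ^ (2 + ε)), ← Real.rpow_mul (by linarith)]
    exact le_of_pow_le_pow_left₀ (by omega) (by positivity) h5
  refine ⟨X, ?_⟩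
  by_contra hcon
  push Not at hcon
  have hcon' : ∀ q, q.Prime → ¬ Covers k X q := by
    intro q hq hc
    exact absurd hXle (not_le.2 (hcon q hq hc))
  -- a missing class for each prime
  have hmiss : ∀ q : ℕ, ∃ c : ℕ, q.Prime → ∀ i < X, ¬ P (k + i) ≡ c [MOD q] := by
    intro q
    by_cases hq : q.Prime
    · have := hcon' q hq
      unfold Covers at this
      push Not at this
      obtain ⟨c, hc⟩ := this
      exact ⟨c, fun _ => hc⟩
    · exact ⟨0, fun h => absurd h hq⟩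
  choose a ha using hmiss
  have hblock : ∀ s : ℕ, s.Prime → y ≤ s → s ≤ X → ∃ i < X, s = P (k + i) := by
    intro s hs h1 h2
    have hX0 : 0 < X := by omega
    apply mem_block hX0 hs h1
    have := add_two_le_P (k + X - 1)
    omega
  obtain ⟨q, hq, hq1, hq2, hq3⟩ := hK0 K (by omega) y hK2y (by
      rw [show 2 * L = e + 2 by omega, pow_add]
      exact Nat.mul_le_mul_right _ hKs) a (by
    intro q hq h1 h2
    rw [Nat.coprime_comm, Nat.Prime.coprime_iff_not_dvd hq]
    intro hdvd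
    obtain ⟨i, hi, hi2⟩ := hblock q hq h1.le (by omega)
    apply ha q hq i hi
    rw [← hi2]
    exact ((Nat.modEq_zero_iff_dvd.2 dvd_rfl).trans (Nat.modEq_zero_iff_dvd.2 hdvd).symm))
  -- at least one of the three primes exceeds `y`
  obtain ⟨s1, hs1, s2, hs2, hne⟩ := one_lt_card.1 (show 1 < _ from lt_of_lt_of_le (by norm_num) hq3)
  simp only [mem_filter, mem_Icc] at hs1 hs2
  rcases lt_or_ge s1 y with h | h
  · rcases lt_or_ge s2 y with h' | h'
    · apply hne
      have h3 : s1 ≡ s2 [MOD q] := hs1.2.2.trans hs2.2.2.symm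
      rw [Nat.ModEq, Nat.mod_eq_of_lt (by omega), Nat.mod_eq_of_lt (by omega)] at h3
      exact h3
    · obtain ⟨i, hi, hi2⟩ := hblock s2 hs2.2.1 h' hs2.1.2
      exact ha q hq i hi (hi2 ▸ hs2.2.2)
  · obtain ⟨i, hi, hi2⟩ := hblock s1 hs1.2.1 h hs1.1.2
    exact ha q hq i hi (hi2 ▸ hs1.2.2)

end Pool.Agent.H312R2
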